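import Pool.Agent.MP_3ee8cb_gt.DNG.G2
import Pool.Agent.MP_3ee8cb_gt.DN.Spec2
import Pool.Agent.MP_3ee8cb_gt.DNA.Hom

/-! From the Gaussian inequality to the inequality on the sphere. -/

namespace Pool.Agent.MP_3ee8cb_gt.DNG

open MeasureTheory ProbabilityTheory Real Set Metric Filter Topology

noncomputable section

theorem polar2 {E : Type} [NormedAddCommGroup E] [InnerProductSpace ℝ E] [FiniteDimensional ℝ E]
    [MeasurableSpace E] [BorelSpace E] [Nontrivial E] {F : E → ℝ} (hF : IntegrableOn F {0}ᶜ) :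
    ∫ v, F v = ∫ s : sphere (0 : E) 1, (∫ r : Ioi (0 : ℝ), F (r.1 • s.1)
      ∂Measure.volumeIoiPow (Module.finrank ℝ E - 1)) ∂(volume : Measure E).toSphere := by
  have mp := (volume : Measure E).measurePreserving_homeomorphUnitSphereProd
  have e : (fun z : sphere (0 : E) 1 × Ioi (0 : ℝ) => F (z.2.1 • z.1.1)) ∘
      homeomorphUnitSphereProd E = F ∘ (↑) := funext fun x => by
    simp only [Function.comp_apply, homeomorphUnitSphereProd_apply_fst_coe,
      homeomorphUnitSphereProd_apply_snd_coe]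
    rw [smul_inv_smul₀ (norm_ne_zero_iff.2 x.2)]
  have hi := (mp.integrable_comp_emb (Homeomorph.measurableEmbedding _)).1
    (e ▸ (integrableOn_iff_comap_subtypeVal (measurableSet_singleton _).compl).1 hF)
  rw [← integral_prod _ hi, ← mp.integral_comp (Homeomorph.measurableEmbedding _)]
  refine ((congrArg (integral · _) (restrict_compl_singleton 0)).symm.trans
    (integral_subtype_comap (measurableSet_singleton _).compl _).symm).trans ?_
  exact integral_congr_ae (.of_forall fun x => (congrFun e x).symm)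

theorem ioi (k : ℕ) (f : ℝ → ℝ) :
    ∫ r : Ioi (0 : ℝ), f r ∂Measure.volumeIoiPow k = ∫ r in Ioi (0 : ℝ), r ^ k * f r := by
  simp only [Measure.volumeIoiPow, ENNReal.ofReal]
  rw [integral_withDensity_eq_integral_smul,
    integral_subtype_comap measurableSet_Ioi fun a => Real.toNNReal (a ^ k) • f a,
    setIntegral_congr_fun measurableSet_Ioi fun x hx => ?_]
  · rw [NNReal.smul_def, Real.coe_toNNReal _ (pow_nonneg hx.out.le _), smul_eq_mul]
  · exact (measurable_subtype_coe.pow_const _).real_toNNReal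

theorem rad (k : ℕ) {b : ℝ} (hb : 0 < b) :
    ∫ r : Ioi (0 : ℝ), exp (-((b * r) ^ 2 / 2)) ∂Measure.volumeIoiPow k =
      (∫ r in Ioi (0 : ℝ), r ^ k * exp (-(r ^ 2 / 2))) / b ^ (k + 1) := by
  have h := integral_comp_mul_left_Ioi (fun r => r ^ k * exp (-(r ^ 2 / 2))) 0 hb
  simp only [mul_pow b _ k, mul_assoc, integral_const_mul, mul_zero, smul_eq_mul] at h
  rw [ioi k fun r => exp (-((b * r) ^ 2 / 2)), eq_div_iff (by positivity), pow_succ]
  field_simp at h ⊢
  exact h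

open DN DNA in
theorem fin_of [Dim] (h3 : SG3) : SG := by
  classical
  intro τ hτ h1
  have fr : Module.finrank ℝ V = Dim.k + 3 := by simp
  have : Nontrivial V := Module.nontrivial_of_finrank_pos (R := ℝ) (by omega)
  obtain ⟨a, ha, hm⟩ := (isCompact_sphere (0 : V) 1).exists_isMaxOn
    (NormedSpace.sphere_nonempty.2 zero_le_one)
    ((cfd hτ.c1).norm.mono fun a ha => ne0 (mem_sphere_zero_iff_norm.1 ha))
  obtain ⟨s, hs⟩ : ∃ s, s = ‖fderiv ℝ τ a‖ := ⟨_, rfl⟩
  have s1 : s < 1 := hs ▸ h1 a (mem_sphere_zero_iff_norm.1 ha)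
  have s0 : 0 ≤ s := hs ▸ norm_nonneg _
  have b1 : ∀ x, x ≠ 0 → ‖fderiv ℝ τ x‖ ≤ s := fun x hx => by
    rw [← fd_hom hτ.c1 hτ.hom hx (inv_ne_zero (norm_ne_zero_iff.2 hx)), hs]
    exact hm (mem_sphere_zero_iff_norm.2 (norm_smul_inv_norm hx))
  have b2 : ∀ x, x ≠ 0 → |τ x| ≤ s * ‖x‖ := fun x hx => by
    rw [← radial (dat hτ.c1 hx) (hasDerivAt_mul_const (τ x)) fun r hr => hτ.hom r x hr.ne' hx]
    exact (fderiv ℝ τ x).le_of_opNorm_le (b1 x hx) x
  obtain ⟨ρ, hρ⟩ : ∃ ρ : V → ℝ, ρ = fun x => if x = 0 then 0 else τ x := ⟨_, rfl⟩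
  have e1 : ∀ x, x ≠ 0 → ρ x = τ x := fun x hx => by simp [hρ, hx]
  have e2 : ∀ x, x ≠ 0 → fderiv ℝ ρ x = fderiv ℝ τ x := fun x hx =>
    EventuallyEq.fderiv_eq (by filter_upwards [isOpen_ne.mem_nhds hx] with y hy using e1 y hy)
  have h := h3 V ρ s (by omega) (hτ.c1.congr e1) (fun x => by
      by_cases hx : x = 0
      · simp [hρ, hx]
      · rw [e1 x hx, e1 _ (neg_ne_zero.2 hx), ← neg_one_smul ℝ x, hτ.hom _ _ (by simp) hx]
        simp) s1 (fun x => by
      by_cases hx : x = 0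
      · simp [hρ, hx]
      · exact e1 x hx ▸ b2 x hx) fun x hx => e2 x hx ▸ b1 x hx
  obtain ⟨c, c0, hc⟩ := rG0 V
  have den : ∀ g : V → ℝ, ∫ x, g x ∂stdGaussian V = c * ∫ x, exp (-(‖x‖ ^ 2 / 2)) * g x :=
    fun g => by
      rw [hc, integral_withDensity_eq_integral_toReal_smul (by fun_prop)
        (.of_forall fun _ => ENNReal.ofReal_lt_top), ← integral_const_mul]
      refine integral_congr_ae (.of_forall fun x => ?_)
      simp only [smul_eq_mul]
      rw [ENNReal.toReal_ofReal (by positivity), mul_assoc]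
  obtain ⟨I, hI⟩ : ∃ I, I = ∫ r in Ioi (0 : ℝ), r ^ (Module.finrank ℝ V - 1) *
    exp (-(r ^ 2 / 2)) := ⟨_, rfl⟩
  have I0 : 0 ≤ I := hI ▸ setIntegral_nonneg measurableSet_Ioi fun r hr =>
    mul_nonneg (pow_nonneg hr.out.le _) (exp_pos _).le
  have k1 : Module.finrank ℝ V - 1 + 1 = dm := by
    rw [fr]
    rfl
  have p1 : c * ((sph fun _ => 1) * I) = 1 := by
    have h1 := den fun _ => 1
    have hi : IntegrableOn (fun x : V => exp (-(‖x‖ ^ 2 / 2)) * 1) {0}ᶜ := by
      simpa only [one_div, inv_mul_eq_div, mul_one] using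
        (int_gauss (E := V) one_half_pos).integrableOn
    rw [polar2 hi, integral_const, probReal_univ, smul_eq_mul, mul_one] at h1
    rw [sph, ← integral_mul_const]
    refine Eq.trans ?_ h1.symm
    refine congrArg _ (integral_congr_ae (.of_forall fun u => ?_))
    have := rad (Module.finrank ℝ V - 1) one_pos
    simp only [one_mul, one_pow, div_one, ← hI] at this ⊢
    rw [← this]
    refine integral_congr_ae (.of_forall fun r => ?_)
    simp [norm_smul]
  have hi : IntegrableOn (fun x : V => exp (-(‖x‖ ^ 2 / 2)) *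
      (exp (ρ x ^ 2 / 2) * √(1 - ‖fderiv ℝ ρ x‖ ^ 2))) {0}ᶜ := by
    have c1 : ContinuousOn ρ {0}ᶜ := hτ.c1.continuousOn.congr e1
    have c2 : ContinuousOn (fderiv ℝ ρ) {0}ᶜ := (cfd hτ.c1).congr e2
    refine (int_gauss (E := V) (b := (1 - s ^ 2) / 2) (by nlinarith)).integrableOn.mono'
      (ContinuousOn.aestronglyMeasurable (by fun_prop) (measurableSet_singleton _).compl) ?_
    filter_upwards [ae_restrict_mem (measurableSet_singleton _).compl] with x hx
    have q1 : √(1 - ‖fderiv ℝ ρ x‖ ^ 2) ≤ 1 := sqrt_le_one.2 (by nlinarith)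
    have q2 : ρ x ^ 2 ≤ (s * ‖x‖) ^ 2 := e1 x hx ▸ sq_le_sq' (abs_le.1 (b2 x hx)).1
      (abs_le.1 (b2 x hx)).2
    rw [norm_of_nonneg (by positivity), ← mul_assoc, ← exp_add]
    exact (mul_le_of_le_one_right (exp_pos _).le q1).trans (exp_le_exp.2 (by nlinarith))
  rw [den, polar2 hi] at h
  have p2 : ∀ u : sphere (0 : V) 1, ∫ r : Ioi (0 : ℝ), exp (-(‖r.1 • u.1‖ ^ 2 / 2)) *
      (exp (ρ (r.1 • u.1) ^ 2 / 2) * √(1 - ‖fderiv ℝ ρ (r.1 • u.1)‖ ^ 2))
      ∂Measure.volumeIoiPow (Module.finrank ℝ V - 1) =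
      √(1 - ‖fderiv ℝ τ u‖ ^ 2) / √(1 - τ u ^ 2) ^ dm * I := fun u => by
    have hu := mem_sphere_zero_iff_norm.1 u.2
    have q := abs_le.1 (b2 u (ne0 hu))
    rw [hu, mul_one] at q
    have q1 : 0 < 1 - τ u ^ 2 := by nlinarith [q.1, q.2]
    have := rad (Module.finrank ℝ V - 1) (sqrt_pos.2 q1)
    rw [← hI, k1] at this
    rw [div_mul_comm, ← this, ← integral_mul_const]
    refine integral_congr_ae (.of_forall fun r => ?_)
    have r0 : r.1 ≠ 0 := r.2.out.ne'
    have r1 := smul_ne_zero r0 (ne0 hu)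
    simp only
    rw [e1 _ r1, e2 _ r1, fd_hom hτ.c1 hτ.hom (ne0 hu) r0, hτ.hom _ _ r0 (ne0 hu), ← mul_assoc,
      ← exp_add, norm_smul, hu, mul_pow √_, sq_sqrt q1.le, mul_one, norm_eq_abs, sq_abs,
      smul_eq_mul]
    congr 2
    ring
  simp only [p2, integral_mul_const] at h
  have I1 : 0 < I := I0.lt_of_ne fun e => by simp [← e] at p1
  exact le_of_mul_le_mul_right (le_of_mul_le_mul_left (h.trans p1.ge) c0) I1

end

end Pool.Agent.MP_3ee8cb_gt.DNG
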