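import Pool.Agent.MP_3ee8cb_gt.DNG.Defs
import Pool.Agent.MP_3ee8cb_gt.DNW.Pair

/-! From the circle inequality to the Gaussian inequality. -/

namespace Pool.Agent.MP_3ee8cb_gt.DNG

open MeasureTheory ProbabilityTheory Real Set Function DNW

variable {E : Type} [NormedAddCommGroup E] [InnerProductSpace ℝ E] [FiniteDimensional ℝ E]
  [MeasurableSpace E] [BorelSpace E]

theorem g3_avg (ν : Measure (E × E)) [IsProbabilityMeasure ν]
    (hr : ∀ t, MeasurePreserving (rot t) ν ν) (Φ : E × E → ℝ) (hm : Measurable Φ)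
    (hb : Integrable Φ ν) (hi : ∀ᵐ p ∂ν, ∫ t in (0 : ℝ)..π, Φ (rot t p) ≤ π) :
    ∫ p, Φ p ∂ν ≤ 1 := by
  have : IsFiniteMeasure (volume.restrict (Ioc (0 : ℝ) π)) :=
    isFiniteMeasure_restrict.2 measure_Ioc_lt_top.ne
  have e : ∀ (Φ : E × E → ℝ), Measurable Φ → ∀ t, ∫ p, Φ (rot t p) ∂ν = ∫ p, Φ p ∂ν :=
    fun Φ hm t => by
      rw [← integral_map (hr t).measurable.aemeasurable hm.aestronglyMeasurable, (hr t).map_eq]
  have j : Integrable (uncurry fun p t => Φ (rot t p))
      (ν.prod (volume.restrict (Ioc (0 : ℝ) π))) := by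
    refine (integrable_prod_iff' (hm.comp (rot_cont.measurable.comp
      measurable_swap)).aestronglyMeasurable).2 ⟨.of_forall fun t =>
        ((hr t).integrable_comp hm.aestronglyMeasurable).2 hb, ?_⟩
    simp only [comp_apply, Prod.fst_swap, Prod.snd_swap, e _ hm.norm]
    exact integrable_const _
  have k := integral_integral_swap j
  simp only [e _ hm, integral_const, MeasurableSet.univ, measureReal_restrict_apply, univ_inter,
    Real.volume_real_Ioc_of_le pi_pos.le, sub_zero, smul_eq_mul] at k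
  refine le_of_mul_le_mul_left (a := π) ?_ pi_pos
  rw [← k]
  refine (integral_mono_ae j.integral_prod_left (integrable_const π) (hi.mono fun p hp => ?_)).trans
    (by simp)
  rwa [intervalIntegral.integral_of_le pi_pos.le] at hp

theorem g3_int (h0 : SG0) {s : ℝ} (hs : s ^ 2 < 1) :
    Integrable (fun x : E => (1 + ‖x‖ ^ 2) * exp (s ^ 2 * ‖x‖ ^ 2 / 2)) (stdGaussian E) := by
  obtain ⟨c, hc, e⟩ := h0 E
  have hb : 0 < (1 - s ^ 2) / 4 := by linarith
  have i : Integrable fun x : E => exp (-((1 - s ^ 2) / 4) * ‖x‖ ^ 2) :=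
    .of_integral_ne_zero (by
      rw [GaussianFourier.integral_rexp_neg_mul_sq_norm hb]
      positivity)
  rw [e, integrable_withDensity_iff (by fun_prop) (.of_forall fun _ => ENNReal.ofReal_lt_top)]
  refine (i.const_mul (c * (1 + ((1 - s ^ 2) / 4)⁻¹))).mono' (by fun_prop) (.of_forall fun x => ?_)
  rw [ENNReal.toReal_ofReal (by positivity), Real.norm_of_nonneg (by positivity)]
  set b := (1 - s ^ 2) / 4 with hbd
  have e1 : exp (s ^ 2 * ‖x‖ ^ 2 / 2) * exp (-(‖x‖ ^ 2 / 2)) * exp (b * ‖x‖ ^ 2) =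
      exp (-b * ‖x‖ ^ 2) := by
    rw [← exp_add, ← exp_add, hbd]
    congr 1
    ring
  have e2 : 1 + ‖x‖ ^ 2 ≤ (1 + b⁻¹) * exp (b * ‖x‖ ^ 2) := by
    have h1 := add_one_le_exp (b * ‖x‖ ^ 2)
    have h2 : 0 ≤ b * ‖x‖ ^ 2 := by positivity
    have h3 : ‖x‖ ^ 2 ≤ b⁻¹ * exp (b * ‖x‖ ^ 2) := by
      rw [le_inv_mul_iff₀ hb]
      linarith
    linarith
  rw [← e1]
  have := mul_le_mul_of_nonneg_right e2
    (by positivity : 0 ≤ c * (exp (s ^ 2 * ‖x‖ ^ 2 / 2) * exp (-(‖x‖ ^ 2 / 2))))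
  linarith

theorem rG3 : OfG3 := by
  intro h0 h1 ⟨cL, bL, h2⟩ E _ _ _ _ _ τ s hE hc ho hs hτ hd
  have : Nontrivial E := Module.nontrivial_of_finrank_pos (R := ℝ) (by omega)
  have : CompleteSpace E := FiniteDimensional.complete ℝ E
  have s0 : 0 ≤ s := by
    obtain ⟨x, hx⟩ := exists_ne (0 : E)
    exact (norm_nonneg _).trans (hd x hx)
  have s2 : s ^ 2 < 1 := by nlinarith
  have ac : stdGaussian E ≪ volume := by
    obtain ⟨c, -, e⟩ := h0 E
    exact e ▸ withDensity_absolutelyContinuous _ _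
  have nz : ∀ᵐ x ∂stdGaussian E, x ≠ 0 := ac.ae_le (compl_mem_ae_iff.2 (measure_singleton (0 : E)))
  have mτ : Measurable τ := measurable_of_continuousOn_compl_singleton 0 hc.continuousOn
  have hm : Measurable fun p : E × E => exp (τ p.1 ^ 2 / 2) * LL (fderiv ℝ τ p.1 p.2) :=
    (((mτ.comp measurable_fst).pow_const 2).div_const 2).exp.mul (cL.measurable.comp
      (ContinuousLinearMap.measurable_apply₂.comp
        (((measurable_fderiv ℝ τ).comp measurable_fst).prodMk measurable_snd)))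
  have hb : Integrable (fun p : E × E => exp (τ p.1 ^ 2 / 2) * LL (fderiv ℝ τ p.1 p.2))
      ((stdGaussian E).prod (stdGaussian E)) := by
    refine ((g3_int h0 s2).mul_prod (g3_int h0 s2)).mono' hm.aestronglyMeasurable ?_
    filter_upwards [Measure.quasiMeasurePreserving_fst.ae nz] with p hp
    have k1 : τ p.1 ^ 2 ≤ s ^ 2 * ‖p.1‖ ^ 2 := by
      rw [← mul_pow, ← sq_abs]
      exact pow_le_pow_left₀ (abs_nonneg _) (hτ _) 2
    have k2 : fderiv ℝ τ p.1 p.2 ^ 2 ≤ s ^ 2 * ‖p.2‖ ^ 2 := by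
      rw [← mul_pow, ← sq_abs]
      exact pow_le_pow_left₀ (abs_nonneg _) ((fderiv ℝ τ p.1).le_of_opNorm_le (hd _ hp) p.2) 2
    have k3 : s ^ 2 * ‖p.2‖ ^ 2 ≤ ‖p.2‖ ^ 2 := mul_le_of_le_one_left (sq_nonneg _) s2.le
    rw [norm_mul, Real.norm_of_nonneg (exp_pos _).le]
    refine mul_le_mul ?_ ((bL _).trans ?_) (norm_nonneg _) (by positivity)
    · refine le_trans ?_ (le_mul_of_one_le_left (exp_pos _).le (by linarith [sq_nonneg ‖p.1‖]))
      exact exp_le_exp.2 (by linarith)
    · exact mul_le_mul (by linarith) (exp_le_exp.2 (by linarith)) (exp_pos _).le (by positivity)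
  have k := g3_avg ((stdGaussian E).prod (stdGaussian E)) (fun t =>
    ⟨(rot_cont.comp (continuous_const.prodMk continuous_id)).measurable,
      IsGaussian.map_rotation_eq_self integral_id_stdGaussian t⟩) _ hm hb (by
    filter_upwards [(ac.prod ac).ae_le (dep_null hE)] with p hp
    have cr : Continuous fun t => rot t p := rot_cont.comp (continuous_id.prodMk continuous_const)
    refine h1 (fun t => τ (rot t p).1) (fun t => fderiv ℝ τ (rot t p).1 (rot t p).2)
      (fun t => ?_) ?_ fun t => ?_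
    · exact ((hc.contDiffAt (isOpen_ne.mem_nhds (rot_ne hp t))).differentiableAt
        one_ne_zero).hasFDerivAt.comp_hasDerivAt t (rot_d1 p t)
    · exact ((hc.continuousOn_fderiv_of_isOpen isOpen_ne le_rfl).comp_continuous cr.fst
        (rot_ne hp)).clm_apply cr.snd
    · rw [rot_pi, Prod.fst_neg, ho])
  rw [integral_prod _ hb] at k
  refine le_of_eq_of_le (integral_congr_ae (nz.mono fun x hx => ?_)) k
  simp only [integral_const_mul, h2 E _ ((hd x hx).trans_lt hs)]

end Pool.Agent.MP_3ee8cb_gt.DNG
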