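import Pool.Agent.MP_3ee8cb_gt.DNG.Pol
import Pool.Agent.MP_3ee8cb_gt.DNG.G3

/-! The area of an odd spacelike graph. -/

namespace Pool.Agent.MP_3ee8cb_gt.DN

variable [Dim]

theorem sG : SG := DNG.fin_of (DNG.rG3 DNG.rG0 DNG.rG1 DNG.rG2)

end Pool.Agent.MP_3ee8cb_gt.DN
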