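import Pool.Agent.MP_3ee8cb_gt.DNG.G1

/-! The density of the Gaussian measure and the mean of the concave function. -/

namespace Pool.Agent.MP_3ee8cb_gt.DNG

open MeasureTheory ProbabilityTheory Real Set
open scoped RealInnerProductSpace

noncomputable section

theorem int_gauss {E : Type} [NormedAddCommGroup E] [InnerProductSpace ℝ E]
    [FiniteDimensional ℝ E] [MeasurableSpace E] [BorelSpace E] {b : ℝ} (hb : 0 < b) :
    Integrable fun x : E => exp (-(b * ‖x‖ ^ 2)) := by
  have := (GaussianFourier.integrable_cexp_neg_mul_sq_norm_add (V := E) (b := b)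
    (by simpa using hb) 0 0).norm
  refine this.congr (.of_forall fun x => ?_)
  simp only [Complex.norm_exp, zero_mul, add_zero]
  norm_cast
  rw [neg_mul]

theorem rG0 : SG0 := by
  intro E _ _ _ _ _
  obtain ⟨c, hc⟩ : ∃ c : ℝ, c = (π / (1 / 2)) ^ (Module.finrank ℝ E / 2 : ℝ) := ⟨_, rfl⟩
  have c0 : 0 < c := hc ▸ rpow_pos_of_pos (by positivity) _
  refine ⟨c⁻¹, inv_pos.2 c0, ?_⟩
  have hi : Integrable fun x : E => c⁻¹ * exp (-(‖x‖ ^ 2 / 2)) := by
    simpa only [one_div, inv_mul_eq_div] using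
      (int_gauss (E := E) one_half_pos).const_mul c⁻¹
  have := isFiniteMeasure_withDensity_ofReal hi.2
  refine Measure.ext_of_charFun (funext fun t => ?_)
  rw [charFun_stdGaussian, charFun_apply, integral_withDensity_eq_integral_toReal_smul
    (by fun_prop) (.of_forall fun _ => ENNReal.ofReal_lt_top)]
  have h := GaussianFourier.integral_cexp_neg_mul_sq_norm_add (V := E) (b := 1 / 2)
    (by norm_num) Complex.I t
  have e : ((π : ℂ) / (1 / 2)) ^ (Module.finrank ℝ E / 2 : ℂ) = c := by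
    rw [hc, Complex.ofReal_cpow (by positivity)]
    simp
  have e2 : ∀ x : E, (ENNReal.ofReal (c⁻¹ * exp (-(‖x‖ ^ 2 / 2)))).toReal •
      Complex.exp (⟪x, t⟫ * Complex.I) =
      (c : ℂ)⁻¹ * Complex.exp (-(1 / 2) * ‖x‖ ^ 2 + Complex.I * ⟪t, x⟫) := fun x => by
    rw [ENNReal.toReal_ofReal (by positivity), Complex.exp_add, real_inner_comm, Complex.real_smul]
    push_cast
    rw [mul_assoc, mul_comm Complex.I]
    congr 3
    ring
  simp only [e2]
  rw [integral_const_mul, h, e, inv_mul_cancel_left₀ (by exact_mod_cast c0.ne'), Complex.I_sq]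
  congr 1
  ring

theorem LL_le (q : ℝ) : |LL q| ≤ (1 + q ^ 2) * exp (q ^ 2 / 2) := by
  have h1 := mul_le_mul_of_nonneg_left (hh_le q) (abs_nonneg q)
  have h2 : |q| * |q| = q ^ 2 := by rw [abs_mul_abs_self, sq]
  refine (abs_sub _ _).trans ?_
  rw [abs_of_pos (exp_pos _), abs_mul]
  nlinarith [exp_pos (q ^ 2 / 2)]

/-- The mean on the line. -/
theorem mean {σ : ℝ} (h0 : 0 ≤ σ) (h1 : σ < 1) :
    ∫ z : ℝ, exp (-z ^ 2 / 2) * LL (σ * z) = √(2 * π) * √(1 - σ ^ 2) := by
  have := hh_c1.continuous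
  have p : 0 < 1 - σ ^ 2 := by nlinarith
  have hb : 0 < (1 - σ ^ 2) / 2 := by positivity
  have e : ∀ z : ℝ, exp (-z ^ 2 / 2) * exp ((σ * z) ^ 2 / 2) = exp (-((1 - σ ^ 2) / 2) * z ^ 2) :=
    fun z => by
      rw [← exp_add]
      congr 1
      ring
  have i0 := integrable_exp_neg_mul_sq hb
  have i1 := (integrable_mul_exp_neg_mul_sq hb).norm
  have i2 := integrable_rpow_mul_exp_neg_mul_sq hb (s := 2) (by norm_num)
  have b1 : ∀ z : ℝ, ‖exp (-z ^ 2 / 2) * hh (σ * z)‖ ≤
      ‖z * exp (-((1 - σ ^ 2) / 2) * z ^ 2)‖ := fun z => by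
    rw [← e, norm_mul, norm_mul, norm_mul, mul_left_comm]
    refine mul_le_mul_of_nonneg_left ((hh_le _).trans ?_) (norm_nonneg _)
    rw [norm_of_nonneg (exp_pos _).le, mul_comm, abs_mul, abs_of_nonneg h0]
    exact mul_le_mul_of_nonneg_right (mul_le_of_le_one_left (abs_nonneg _) h1.le) (exp_pos _).le
  have j1 : Integrable fun z : ℝ => exp (-z ^ 2 / 2) * hh (σ * z) :=
    i1.mono' (Continuous.aestronglyMeasurable (by fun_prop)) (.of_forall b1)
  have j2 : Integrable fun z : ℝ => z * (exp (-z ^ 2 / 2) * hh (σ * z)) :=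
    i2.mono' (Continuous.aestronglyMeasurable (by fun_prop)) (.of_forall fun z => by
      rw [norm_mul]
      refine (mul_le_mul_of_nonneg_left (b1 z) (norm_nonneg _)).trans_eq ?_
      rw [norm_mul, norm_of_nonneg (exp_pos _).le, ← mul_assoc, norm_eq_abs, abs_mul_abs_self,
        rpow_two, sq z])
  have d : ∀ z : ℝ, HasDerivAt (fun z => exp (-z ^ 2 / 2) * hh (σ * z))
      (σ * exp (-((1 - σ ^ 2) / 2) * z ^ 2) - z * (exp (-z ^ 2 / 2) * hh (σ * z))) z := fun z => by
    refine ((((hasDerivAt_pow 2 z).fun_neg.div_const 2).exp).fun_mul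
      ((hh_der (σ * z)).comp z (hasDerivAt_const_mul σ))).congr_deriv ?_
    rw [← e]
    simp only [Function.comp_apply, Nat.cast_ofNat, Nat.add_one_sub_one, pow_one]
    ring
  have z0 := integral_eq_zero_of_hasDerivAt_of_integrable d ((i0.const_mul σ).sub j2) j1
  rw [integral_sub (i0.const_mul σ) j2, integral_const_mul, sub_eq_zero] at z0
  have e3 : ∀ z : ℝ, exp (-z ^ 2 / 2) * LL (σ * z) = exp (-((1 - σ ^ 2) / 2) * z ^ 2) -
      σ * (z * (exp (-z ^ 2 / 2) * hh (σ * z))) := fun z => by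
    rw [← e, LL]
    ring
  simp only [e3]
  rw [integral_sub i0 (j2.const_mul σ), integral_const_mul, ← z0, integral_gaussian,
    show π / ((1 - σ ^ 2) / 2) = 2 * π / (1 - σ ^ 2) by field_simp, sqrt_div' _ p.le]
  have s := sqrt_pos.2 p
  have s2 := sq_sqrt p.le
  field_simp
  linear_combination (-1 : ℝ) * s2

theorem rG2 : SG2 := by
  refine ⟨LL_cont, LL_le, fun E _ _ _ _ _ p hp => ?_⟩
  have e : (stdGaussian E).map p = (gaussianReal 0 1).map (‖p‖ * ·) := by
    rw [IsGaussian.map_eq_gaussianReal, gaussianReal_map_const_mul, variance_dual_stdGaussian,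
      integral_strongDual_stdGaussian, mul_zero, mul_one]
    congr 1
    ext
    simp
  rw [← integral_map (f := LL) p.continuous.aemeasurable LL_cont.aestronglyMeasurable, e,
    integral_map (by fun_prop) LL_cont.aestronglyMeasurable,
    integral_gaussianReal_eq_integral_smul one_ne_zero]
  simp only [gaussianPDFReal_def, NNReal.coe_one, mul_one, sub_zero, smul_eq_mul, mul_assoc]
  rw [integral_const_mul, mean (norm_nonneg p) hp, inv_mul_cancel_left₀ (by positivity)]

end

end Pool.Agent.MP_3ee8cb_gt.DNG
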