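import Mathlib

/-! A Gaussian inequality for odd functions of slope less than one: definitions and statements. -/

namespace Pool.Agent.MP_3ee8cb_gt.DNG

open MeasureTheory ProbabilityTheory Real

noncomputable section

/-- The primitive of `exp (m ^ 2 / 2)`. -/
def hh (q : ℝ) : ℝ := ∫ m in (0 : ℝ)..q, exp (m ^ 2 / 2)

/-- The concave function with derivative `-hh`. -/
def LL (q : ℝ) : ℝ := exp (q ^ 2 / 2) - q * hh q

/-- The inequality on a circle. -/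
def SG1 : Prop := ∀ f f' : ℝ → ℝ, (∀ t, HasDerivAt f (f' t) t) → Continuous f' →
  (∀ t, f (t + π) = -f t) → ∫ t in (0 : ℝ)..π, exp (f t ^ 2 / 2) * LL (f' t) ≤ π

/-- The Gaussian mean of `LL`, and crude bounds. -/
def SG2 : Prop := Continuous LL ∧ (∀ q, |LL q| ≤ (1 + q ^ 2) * exp (q ^ 2 / 2)) ∧
  ∀ (E : Type) [NormedAddCommGroup E] [InnerProductSpace ℝ E] [FiniteDimensional ℝ E]
    [MeasurableSpace E] [BorelSpace E] (p : E →L[ℝ] ℝ), ‖p‖ < 1 →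
    ∫ u, LL (p u) ∂(stdGaussian E) = √(1 - ‖p‖ ^ 2)

/-- The Gaussian measure has a density. -/
def SG0 : Prop := ∀ (E : Type) [NormedAddCommGroup E] [InnerProductSpace ℝ E]
  [FiniteDimensional ℝ E] [MeasurableSpace E] [BorelSpace E], ∃ c : ℝ, 0 < c ∧
    stdGaussian E = volume.withDensity fun x => ENNReal.ofReal (c * exp (-(‖x‖ ^ 2 / 2)))

/-- The inequality for the Gaussian measure. -/
def SG3 : Prop := ∀ (E : Type) [NormedAddCommGroup E] [InnerProductSpace ℝ E]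
  [FiniteDimensional ℝ E] [MeasurableSpace E] [BorelSpace E] (τ : E → ℝ) (s : ℝ),
  2 ≤ Module.finrank ℝ E → ContDiffOn ℝ 1 τ {x | x ≠ 0} → (∀ x, τ (-x) = -τ x) → s < 1 →
  (∀ x, |τ x| ≤ s * ‖x‖) → (∀ x, x ≠ 0 → ‖fderiv ℝ τ x‖ ≤ s) →
  ∫ x, exp (τ x ^ 2 / 2) * √(1 - ‖fderiv ℝ τ x‖ ^ 2) ∂(stdGaussian E) ≤ 1

def OfG3 : Prop := SG0 → SG1 → SG2 → SG3

end

end Pool.Agent.MP_3ee8cb_gt.DNG
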