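import Pool.Agent.MP_3ee8cb_gt.DNG.Defs
import Pool.Agent.MP_3ee8cb_gt.D3JC.Ode

/-! The inequality on a circle, by a calibration. -/

namespace Pool.Agent.MP_3ee8cb_gt.DNG

open MeasureTheory Real Set Filter Topology

noncomputable section

theorem hh_der (q : ℝ) : HasDerivAt hh (exp (q ^ 2 / 2)) q :=
  (Continuous.integral_hasStrictDerivAt (f := fun m => exp (m ^ 2 / 2)) (by fun_prop) 0
    q).hasDerivAt

theorem hh_c1 : ContDiff ℝ 1 hh := by
  rw [contDiff_one_iff_deriv, funext fun q => (hh_der q).deriv]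
  exact ⟨fun q => (hh_der q).differentiableAt, by fun_prop⟩

theorem LL_cont : Continuous LL := by
  have := hh_c1.continuous
  unfold LL
  fun_prop

theorem int_le {g : ℝ → ℝ} {x B : ℝ} (h : ∀ m, |m| ≤ |x| → |g m| ≤ B) :
    |∫ m in (0 : ℝ)..x, g m| ≤ B * |x| := by
  have := intervalIntegral.norm_integral_le_of_norm_le_const (a := 0) (b := x) (f := g) (C := B)
    fun m hm => h m (by simpa using abs_sub_left_of_mem_uIcc (uIoc_subset_uIcc hm))
  simpa using this

theorem exp_le {m x : ℝ} (h : |m| ≤ |x|) : exp (m ^ 2 / 2) ≤ exp (x ^ 2 / 2) :=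
  exp_le_exp.2 (by linarith [sq_le_sq.2 h])

theorem hh_le (q : ℝ) : |hh q| ≤ exp (q ^ 2 / 2) * |q| :=
  int_le fun _ hm => (abs_of_pos (exp_pos _)).trans_le (exp_le hm)

theorem exp_der (l : ℝ) : HasDerivAt (fun l : ℝ => exp (l ^ 2 / 2)) (exp (l ^ 2 / 2) * l) l :=
  (((hasDerivAt_pow 2 l).div_const 2).exp).congr_deriv (by simp)

/-- The tangent lines lie above the graph. -/
theorem tangent (q l : ℝ) : LL q ≤ exp (l ^ 2 / 2) - hh l * q := by
  have d : ∀ l, HasDerivAt (fun l => exp (l ^ 2 / 2) - hh l * q) (exp (l ^ 2 / 2) * (l - q)) l :=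
    fun l => ((exp_der l).fun_sub ((hh_der l).mul_const q)).congr_deriv (by ring)
  have := isMinOn_univ_of_deriv (b := q) (d q).continuousAt
    (fun x _ => (d x).differentiableAt.differentiableWithinAt)
    (fun x _ => (d x).differentiableAt.differentiableWithinAt)
    (fun x hx => by
      rw [(d x).deriv]
      exact mul_nonpos_of_nonneg_of_nonpos (exp_pos _).le (sub_nonpos.2 (le_of_lt hx)))
    (fun x hx => by
      rw [(d x).deriv]
      exact mul_nonneg (exp_pos _).le (sub_nonneg.2 (le_of_lt hx))) (mem_univ l)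
  rw [LL, mul_comm]
  exact this

theorem par_int {E W : Type} [NormedAddCommGroup E] [NormedSpace ℝ E] [FiniteDimensional ℝ E]
    [NormedAddCommGroup W] [NormedSpace ℝ W] {G : ℝ × E → W} (hG : ContDiff ℝ 1 G) (s : ℝ)
    (z : E) : HasFDerivAt (fun x => ∫ r in (0 : ℝ)..s, G (r, x))
      (∫ r in (0 : ℝ)..s, (fderiv ℝ G (r, z)).comp (.inr ℝ ℝ E)) z := by
  have := FiniteDimensional.proper_real E
  have cD : Continuous fun q => (fderiv ℝ G q).comp (ContinuousLinearMap.inr ℝ ℝ E) :=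
    (hG.continuous_fderiv one_ne_zero).clm_comp continuous_const
  have cG : ∀ x, Continuous fun s => G (s, x) := fun x => hG.continuous.comp (by fun_prop)
  obtain ⟨B, hB⟩ := ((isCompact_uIcc (a := (0 : ℝ)) (b := s)).prod
    (isCompact_closedBall z 1)).exists_bound_of_continuousOn cD.continuousOn
  exact intervalIntegral.hasFDerivAt_integral_of_dominated_of_fderiv_le (μ := volume)
    (F := fun x r => G (r, x)) (F' := fun x r => (fderiv ℝ G (r, x)).comp (.inr ℝ ℝ E))
    (bound := fun _ => B) (Metric.closedBall_mem_nhds z one_pos)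
    (Eventually.of_forall fun x => (cG x).aestronglyMeasurable)
    ((cG z).intervalIntegrable _ _)
    (cD.comp (f := fun r => (r, z)) (by fun_prop)).aestronglyMeasurable
    (Eventually.of_forall fun r hr x hx => hB (r, x) ⟨uIoc_subset_uIcc hr, hx⟩)
    intervalIntegrable_const (Eventually.of_forall fun r _ x _ =>
      ((hG.differentiable one_ne_zero) _).hasFDerivAt.comp x (hasFDerivAt_prodMk_right r x))

/-- The calibration. -/
def FF (c x : ℝ) : ℝ := ∫ m in (0 : ℝ)..x, exp (m ^ 2 / 2) * hh (c * m)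

theorem FF_le (c x : ℝ) :
    |FF c x| ≤ exp (x ^ 2 / 2) * (exp ((c * x) ^ 2 / 2) * |c * x|) * |x| :=
  int_le fun m hm => by
    have h1 : |c * m| ≤ |c * x| := by
      rw [abs_mul, abs_mul]
      exact mul_le_mul_of_nonneg_left hm (abs_nonneg _)
    rw [abs_mul, abs_of_pos (exp_pos _)]
    exact mul_le_mul (exp_le hm) ((hh_le _).trans
      (mul_le_mul (exp_le h1) h1 (abs_nonneg _) (exp_pos _).le)) (abs_nonneg _) (exp_pos _).le

theorem FF_diff (p : ℝ × ℝ) : DifferentiableAt ℝ (fun p : ℝ × ℝ => FF p.1 p.2) p := by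
  have := hh_c1
  have h : ContDiff ℝ 1 fun q : ℝ × ℝ × ℝ =>
      q.2.2 * (exp ((q.2.2 * q.1) ^ 2 / 2) * hh (q.2.1 * (q.2.2 * q.1))) := by fun_prop
  have e : (fun p : ℝ × ℝ => FF p.1 p.2) = fun p : ℝ × ℝ => ∫ r in (0 : ℝ)..1,
      p.2 * (exp ((p.2 * r) ^ 2 / 2) * hh (p.1 * (p.2 * r))) := funext fun p => by
    rw [intervalIntegral.integral_const_mul, FF]
    simpa using (intervalIntegral.smul_integral_comp_mul_left (a := 0) (b := 1)
      (fun m => exp (m ^ 2 / 2) * hh (p.1 * m)) p.2).symm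
  rw [e]
  exact (par_int h 1 p).differentiableAt

theorem FF_x (c x : ℝ) : HasDerivAt (FF c) (exp (x ^ 2 / 2) * hh (c * x)) x := by
  have := hh_c1.continuous
  exact (Continuous.integral_hasStrictDerivAt (f := fun m => exp (m ^ 2 / 2) * hh (c * m))
    (by fun_prop) 0 x).hasDerivAt

theorem FF_c (c x : ℝ) : HasDerivAt (fun c => FF c x)
    ((exp (x ^ 2 * (1 + c ^ 2) / 2) - 1) / (1 + c ^ 2)) c := by
  have := hh_c1
  have h : ContDiff ℝ 1 fun q : ℝ × ℝ => exp (q.1 ^ 2 / 2) * hh (q.2 * q.1) := by fun_prop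
  have cD : Continuous fun r : ℝ => (fderiv ℝ (fun q : ℝ × ℝ => exp (q.1 ^ 2 / 2) *
      hh (q.2 * q.1)) (r, c)).comp (ContinuousLinearMap.inr ℝ ℝ ℝ) :=
    ((h.continuous_fderiv one_ne_zero).comp (by fun_prop)).clm_comp continuous_const
  refine (par_int h x c).hasDerivAt.congr_deriv ?_
  have p : (0 : ℝ) < 1 + c ^ 2 := by positivity
  rw [ContinuousLinearMap.intervalIntegral_apply (cD.intervalIntegrable _ _)]
  have e : ∀ r : ℝ, (fderiv ℝ (fun q : ℝ × ℝ => exp (q.1 ^ 2 / 2) * hh (q.2 * q.1)) (r, c)).comp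
      (ContinuousLinearMap.inr ℝ ℝ ℝ) 1 = exp (r ^ 2 * (1 + c ^ 2) / 2) * r := fun r => by
    have h1 := (D3JC.fd_snd h r c).hasDerivAt
    have h2 := ((hh_der (c * r)).comp c (hasDerivAt_mul_const r)).const_mul (exp (r ^ 2 / 2))
    rw [h1.unique h2, ← mul_assoc, ← exp_add]
    congr 2
    ring
  have d : ∀ r : ℝ, HasDerivAt (fun r : ℝ => exp (r ^ 2 * (1 + c ^ 2) / 2) / (1 + c ^ 2))
      (exp (r ^ 2 * (1 + c ^ 2) / 2) * r) r := fun r => by
    refine (((((hasDerivAt_pow 2 r).mul_const (1 + c ^ 2)).div_const 2).exp).div_const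
      (1 + c ^ 2)).congr_deriv ?_
    simp only [Nat.cast_ofNat, Nat.add_one_sub_one, pow_one]
    field_simp
  simp only [e]
  rw [intervalIntegral.integral_eq_sub_of_hasDerivAt (fun r _ => d r)
    (Continuous.intervalIntegrable (by fun_prop) _ _)]
  simp [sub_div]

theorem FF_der {c x : ℝ → ℝ} {c' x' t : ℝ} (hc : HasDerivAt c c' t) (hx : HasDerivAt x x' t) :
    HasDerivAt (fun t => FF (c t) (x t))
      (c' * ((exp (x t ^ 2 * (1 + c t ^ 2) / 2) - 1) / (1 + c t ^ 2)) +
        x' * (exp (x t ^ 2 / 2) * hh (c t * x t))) t := by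
  have D := (FF_diff (c t, x t)).hasFDerivAt
  have a1 : HasDerivAt (fun y => FF y (x t)) _ (c t) :=
    D.comp_hasDerivAt (f := fun y => (y, x t)) (c t)
      ((hasDerivAt_id' (c t)).prodMk (hasDerivAt_const (c t) (x t)))
  have a2 : HasDerivAt (FF (c t)) _ (x t) :=
    D.comp_hasDerivAt (f := fun y => (c t, y)) (x t)
      ((hasDerivAt_const (x t) (c t)).prodMk (hasDerivAt_id' (x t)))
  have h1 := a1.unique (FF_c (c t) (x t))
  have h2 := a2.unique (FF_x (c t) (x t))
  refine (D.comp_hasDerivAt (f := fun t => (c t, x t)) t (hc.prodMk hx)).congr_deriv ?_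
  rw [← h1, ← h2, ← smul_eq_mul, ← smul_eq_mul, ← map_smul, ← map_smul, ← map_add]
  simp

theorem FF_end {f : ℝ → ℝ} {f' a : ℝ} (hf : HasDerivAt f f' a) (h0 : f a = 0) (hs : sin a = 0) :
    Tendsto (fun t => FF (cos t / sin t) (f t)) (𝓝[≠] a) (𝓝 0) := by
  have hc : cos a ≠ 0 := fun h => by simpa [h, hs] using sin_sq_add_cos_sq a
  have h1 := (hasDerivAt_iff_tendsto_slope.1 hf).div
    (hasDerivAt_iff_tendsto_slope.1 (hasDerivAt_sin a)) hc
  have h2 : Tendsto (fun t => cos t / sin t * f t) (𝓝[≠] a) (𝓝 (cos a * (f' / cos a))) := by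
    refine ((continuous_cos.tendsto a).mono_left nhdsWithin_le_nhds |>.mul h1).congr' ?_
    filter_upwards [self_mem_nhdsWithin] with t ht
    have : t - a ≠ 0 := sub_ne_zero.2 ht
    simp only [Pi.div_apply, slope_def_field, h0, hs, sub_zero]
    rw [div_div_div_cancel_right₀ this]
    ring
  have h3 : Tendsto f (𝓝[≠] a) (𝓝 0) := h0 ▸ hf.continuousAt.tendsto.mono_left nhdsWithin_le_nhds
  have c : Continuous fun p : ℝ × ℝ => exp (p.1 ^ 2 / 2) * (exp (p.2 ^ 2 / 2) * |p.2|) * |p.1| := by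
    fun_prop
  have h4 := (c.tendsto _).comp (h3.prodMk_nhds h2)
  simp only [abs_zero, mul_zero] at h4
  exact squeeze_zero_norm (fun t => FF_le _ _) h4

theorem g1_zero {f f' : ℝ → ℝ} (hf : ∀ t, HasDerivAt f (f' t) t) (hc : Continuous f')
    (h0 : f 0 = 0) (h1 : f π = 0) : ∫ t in (0 : ℝ)..π, exp (f t ^ 2 / 2) * LL (f' t) ≤ π := by
  have cf : Continuous f := continuous_iff_continuousAt.2 fun t => (hf t).continuousAt
  have := LL_cont
  have cg : Continuous fun t => exp (f t ^ 2 / 2) * LL (f' t) := by fun_prop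
  obtain ⟨I, hI⟩ : ∃ I : ℝ → ℝ, I = fun s => ∫ t in (0 : ℝ)..s, exp (f t ^ 2 / 2) * LL (f' t) :=
    ⟨_, rfl⟩
  have dI : ∀ s, HasDerivAt I (exp (f s ^ 2 / 2) * LL (f' s)) s := fun s =>
    hI ▸ (cg.integral_hasStrictDerivAt 0 s).hasDerivAt
  have d : ∀ t ∈ Ioo 0 π, ∃ e, 0 ≤ e ∧
      HasDerivAt (fun t => t - I t - FF (cos t / sin t) (f t)) e t := fun t ht => by
    have s0 := (sin_pos_of_mem_Ioo ht).ne'
    refine ⟨_, ?_, ((hasDerivAt_id' t).fun_sub (dI t)).fun_sub
      (FF_der ((hasDerivAt_cos t).fun_div (hasDerivAt_sin t) s0) (hf t))⟩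
    have e1 : (-sin t * sin t - cos t * cos t) / sin t ^ 2 = -(1 + (cos t / sin t) ^ 2) := by
      field_simp
      ring
    have p : (0 : ℝ) < 1 + (cos t / sin t) ^ 2 := by positivity
    have e2 : exp (f t ^ 2 * (1 + (cos t / sin t) ^ 2) / 2) =
        exp (f t ^ 2 / 2) * exp ((cos t / sin t * f t) ^ 2 / 2) := by
      rw [← exp_add]
      congr 1
      ring
    rw [e1, neg_mul, mul_div_cancel₀ _ p.ne', e2]
    have := mul_le_mul_of_nonneg_left (tangent (f' t) (cos t / sin t * f t))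
      (exp_pos (f t ^ 2 / 2)).le
    linarith
  choose! e he hd using d
  have mono : MonotoneOn (fun t => t - I t - FF (cos t / sin t) (f t)) (Ioo 0 π) :=
    monotoneOn_of_hasDerivWithinAt_nonneg (f' := e) (convex_Ioo 0 π)
      (fun t ht => (hd t ht).continuousAt.continuousWithinAt)
      (fun t ht => (hd t (interior_subset ht)).hasDerivWithinAt)
      fun t ht => he t (interior_subset ht)
  have lim : ∀ a, f a = 0 → sin a = 0 → Tendsto (fun t => t - I t - FF (cos t / sin t) (f t))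
      (𝓝[≠] a) (𝓝 (a - I a - 0)) := fun a ha hs =>
    ((continuousAt_id.sub (dI a).continuousAt).tendsto.mono_left nhdsWithin_le_nhds).sub
      (FF_end (hf a) ha hs)
  have hm : π / 2 ∈ Ioo 0 π := ⟨by positivity, by linarith [pi_pos]⟩
  have l0 := le_of_tendsto ((lim 0 h0 sin_zero).mono_left (nhdsGT_le_nhdsNE 0)) (by
    filter_upwards [Ioo_mem_nhdsGT hm.1] with t ht
    exact mono ⟨ht.1, ht.2.trans hm.2⟩ hm ht.2.le)
  have l1 := ge_of_tendsto ((lim π h1 sin_pi).mono_left (nhdsLT_le_nhdsNE π)) (by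
    filter_upwards [Ioo_mem_nhdsLT hm.2] with t ht
    exact mono hm ⟨hm.1.trans ht.1, ht.2⟩ ht.1.le)
  have := l0.trans l1
  simp only [hI, intervalIntegral.integral_same] at this
  linarith

theorem LL_neg (q : ℝ) : LL (-q) = LL q := by
  have : hh (-q) = -hh q := by
    have := intervalIntegral.integral_comp_neg (a := 0) (b := q) fun m => exp (m ^ 2 / 2)
    simp only [neg_sq, neg_zero] at this
    rw [hh, hh, this, intervalIntegral.integral_symm]
  simp [LL, this]

theorem rG1 : SG1 := by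
  intro f f' hf hc ha
  have cf : Continuous f := continuous_iff_continuousAt.2 fun t => (hf t).continuousAt
  have ha' : ∀ t, f' (t + π) = -f' t := fun t => by
    have h1 := (hf (t + π)).comp_add_const t π
    rw [funext ha] at h1
    exact h1.unique (hf t).fun_neg
  obtain ⟨a, -, h0⟩ : (0 : ℝ) ∈ f '' uIcc 0 (0 + π) := by
    refine intermediate_value_uIcc cf.continuousOn ?_
    rw [ha]
    rcases le_total 0 (f 0) with h | h
    · exact mem_uIcc.2 (Or.inr ⟨by linarith, h⟩)
    · exact mem_uIcc.2 (Or.inl ⟨h, by linarith⟩)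
  have per : Function.Periodic (fun t => exp (f t ^ 2 / 2) * LL (f' t)) π := fun t => by
    simp only [ha, ha', neg_sq, LL_neg]
  have h1 := g1_zero (f := fun t => f (t + a)) (f' := fun t => f' (t + a))
    (fun t => (hf (t + a)).comp_add_const t a) (hc.comp (by fun_prop)) (by simpa using h0)
    (by simp [add_comm π, ha, h0])
  rw [intervalIntegral.integral_comp_add_right (fun t => exp (f t ^ 2 / 2) * LL (f' t)),
    zero_add, add_comm, per.intervalIntegral_add_eq a 0, zero_add] at h1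
  exact h1

end

end Pool.Agent.MP_3ee8cb_gt.DNG
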